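import Mathlib

set_option autoImplicit false

namespace Pool.Agent.Results.MP_9c76b4_al.Counter

open Set Topology Filter

def Quasihom {G H : Type} [AddGroup G] [AddGroup H] [TopologicalSpace G] [TopologicalSpace H]
    (t : H → G) : Prop :=
  t 0 = 0 ∧ ContinuousAt (fun p : H × H => t p.1 + t p.2 + -t (p.1 + p.2)) (0, 0) ∧
    ∀ y : H, ContinuousAt (fun h => t y + t h + -t y + -t (y + h + -y)) 0

def G : Type := ℝ → ℤ
def H : Type := ℝ → ZMod 2
instance : AddCommGroup G := inferInstanceAs (AddCommGroup (ℝ → ℤ))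
instance : AddCommGroup H := inferInstanceAs (AddCommGroup (ℝ → ZMod 2))

abbrev I : Type := {C : Set ℝ // C.Countable}
instance : Nonempty I := ⟨⟨∅, countable_empty⟩⟩

def B (p : I × ℕ) : Submodule ℤ G where
  carrier := {x | (∀ i ∈ p.1.1, x i = 0) ∧ ∀ i, 3 ^ p.2 ∣ x i}
  zero_mem' := ⟨fun _ _ => rfl, fun _ => dvd_zero _⟩
  add_mem' := fun {a b} ha hb => ⟨fun i hi => show a i + b i = 0 by simp [ha.1 i hi, hb.1 i hi],
    fun i => dvd_add (ha.2 i) (hb.2 i)⟩
  smul_mem' := fun c a ha => ⟨fun i hi => show c * a i = 0 by simp [ha.1 i hi],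
    fun i => (ha.2 i).mul_left c⟩

def B' (C : I) : Submodule ℤ H where
  carrier := {x | ∀ i ∈ C.1, x i = 0}
  zero_mem' := fun _ _ => rfl
  add_mem' := fun {a b} ha hb i hi => show a i + b i = 0 by simp [ha i hi, hb i hi]
  smul_mem' := fun c a ha i hi => show c • a i = 0 by simp [ha i hi]

lemma hB : SubmodulesBasis B where
  inter := fun p q => ⟨(⟨p.1.1 ∪ q.1.1, p.1.2.union q.1.2⟩, max p.2 q.2), fun _ h =>
    ⟨⟨fun i hi => h.1 i (Or.inl hi), fun i => (pow_dvd_pow _ (le_max_left _ _)).trans (h.2 i)⟩,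
      fun i hi => h.1 i (Or.inr hi), fun i => (pow_dvd_pow _ (le_max_right _ _)).trans (h.2 i)⟩⟩
  smul := fun m i => by simp

lemma hB' : SubmodulesBasis B' where
  inter := fun p q => ⟨⟨p.1 ∪ q.1, p.2.union q.2⟩, fun _ h =>
    ⟨fun i hi => h i (Or.inl hi), fun i hi => h i (Or.inr hi)⟩⟩
  smul := fun m i => by simp

instance : TopologicalSpace G := hB.topology
instance : TopologicalSpace H := hB'.topology
instance : IsTopologicalAddGroup G := hB.toModuleFilterBasis.toAddGroupFilterBasis.isTopologicalAddGroup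
instance : IsTopologicalAddGroup H :=
  hB'.toModuleFilterBasis.toAddGroupFilterBasis.isTopologicalAddGroup

lemma nG {U : Set G} : U ∈ 𝓝 (0 : G) ↔ ∃ p, (B p : Set G) ⊆ U :=
  hB.toModuleFilterBasis.toAddGroupFilterBasis.nhds_zero_hasBasis.mem_iff.trans
    ⟨fun ⟨_, ⟨p, h⟩, h'⟩ => ⟨p, h ▸ h'⟩, fun ⟨p, h⟩ => ⟨_, ⟨p, rfl⟩, h⟩⟩

lemma nH {U : Set H} : U ∈ 𝓝 (0 : H) ↔ ∃ p, (B' p : Set H) ⊆ U :=
  hB'.toModuleFilterBasis.toAddGroupFilterBasis.nhds_zero_hasBasis.mem_iff.trans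
    ⟨fun ⟨_, ⟨p, h⟩, h'⟩ => ⟨p, h ▸ h'⟩, fun ⟨p, h⟩ => ⟨_, ⟨p, rfl⟩, h⟩⟩

def f : G →+ H where
  toFun x i := (x i : ZMod 2)
  map_zero' := funext fun _ => Int.cast_zero
  map_add' _ _ := funext fun _ => Int.cast_add _ _

lemma lift (n : ℕ) (h : H) : ∃ x : G, f x = h ∧ ∀ i, (h i = 0 → x i = 0) ∧ 3 ^ n ∣ x i :=
  ⟨fun i => 3 ^ n * (h i).val, funext fun i => by
    show ((3 ^ n * (h i).val : ℤ) : ZMod 2) = h i
    rw [Int.cast_mul, Int.cast_pow, show ((3 : ℤ) : ZMod 2) = 1 from rfl]; simp,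
    fun i => ⟨fun h0 => by simp [h0], dvd_mul_right _ _⟩⟩

theorem result : ∃ (G H : Type) (_ : AddCommGroup G) (_ : AddCommGroup H) (_ : TopologicalSpace G)
    (_ : TopologicalSpace H) (_ : IsTopologicalAddGroup G) (_ : IsTopologicalAddGroup H)
    (f : G →+ H), T2Space G ∧ T2Space H ∧ Continuous f ∧ IsOpenMap f ∧ Function.Surjective f ∧
      ∀ s : H → G, (∀ h, f (s h) = h) → ¬ Quasihom s := by
  refine ⟨G, H, inferInstance, inferInstance, inferInstance, inferInstance, inferInstance,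
    inferInstance, f, ?_, ?_, continuous_of_continuousAt_zero f fun U hU => ?_, ?_,
    fun h => (lift 0 h).imp fun _ => And.left, fun s hs ⟨h1, h2, _⟩ => ?_⟩
  · exact IsTopologicalAddGroup.t2Space_of_zero_sep fun x hx => by
      obtain ⟨i, hi⟩ := Function.ne_iff.1 hx
      exact ⟨_, nG.2 ⟨(⟨{i}, countable_singleton i⟩, 0), subset_rfl⟩, fun h => hi (h.1 i rfl)⟩
  · exact IsTopologicalAddGroup.t2Space_of_zero_sep fun x hx => by
      obtain ⟨i, hi⟩ := Function.ne_iff.1 hx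
      exact ⟨_, nH.2 ⟨⟨{i}, countable_singleton i⟩, subset_rfl⟩, fun h => hi (h i rfl)⟩
  · obtain ⟨C, hC⟩ := nH.1 (map_zero f ▸ hU)
    exact nG.2 ⟨(C, 0), fun x hx => hC fun i hi => show ((x i : ℤ) : ZMod 2) = 0 by
      simp [hx.1 i hi]⟩
  · refine IsTopologicalAddGroup.isOpenMap_iff_nhds_zero.2 fun U hU => ?_
    obtain ⟨p, hp⟩ := nG.1 hU
    refine nH.2 ⟨p.1, fun h hh => ?_⟩
    obtain ⟨x, rfl, hx⟩ := lift p.2 h
    exact hp ⟨fun i hi => (hx i).1 (hh i hi), fun i => (hx i).2⟩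
  · have h3 : ∀ n : ℕ, ∃ C : I, ∀ h ∈ B' C, ∀ i, 3 ^ n ∣ s h i + s h i := fun n => by
      have h3 : Continuous fun h : H => (h, h) := by fun_prop
      obtain ⟨C, hC⟩ := nH.1 ((h2.tendsto.comp (h3.tendsto 0))
        (by simpa [h1] using nG.2 ⟨(⟨∅, countable_empty⟩, n), subset_rfl⟩))
      refine ⟨C, fun h hh i => ?_⟩
      have h4 : h + h = 0 := funext fun i => CharTwo.add_self_eq_zero (h i)
      have := (hC hh).2 i
      simp only [Function.comp, h4, h1, neg_zero, add_zero] at this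
      exact this
    choose C hC using h3
    obtain ⟨i, hi⟩ := (ne_univ_iff_exists_notMem _).1 fun h : ⋃ n, (C n).1 = univ =>
      Cardinal.not_countable_real (h ▸ countable_iUnion fun n => (C n).2)
    let a : H := Pi.single (M := fun _ => ZMod 2) i 1
    have h4 : s a i + s a i = 0 := by
      refine Int.eq_zero_of_abs_lt_dvd (hC |s a i + s a i|.toNat a (fun k hk => ?_) i) ?_
      · exact Pi.single_eq_of_ne (fun c => hi (mem_iUnion.2 ⟨_, c ▸ hk⟩)) _
      · have := Nat.lt_pow_self (n := |s a i + s a i|.toNat) (show 1 < 3 by norm_num)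
        zify at this
        rwa [Int.toNat_of_nonneg (abs_nonneg _)] at this
    have h5 : ((s a i : ℤ) : ZMod 2) = a i := congrFun (hs a) i
    rw [show s a i = 0 by omega] at h5
    simp [a] at h5

end Pool.Agent.Results.MP_9c76b4_al.Counter
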